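import Pool.Agent.Results.MP_2194ec_nt.RandomOrbits
import Pool.Agent.U569.APL.Fam

set_option autoImplicit false

/-!
# MP_2194ec_nt: the dynamical Lehmer inequality for polynomials with coefficients formed from arbitrary sets

Let `d ≥ 2`. For a number field `K` of degree `m`, with an integral basis, a vector in `ℤ ^ r`, `r = m (d + 2)`, gives
`b, c_0, …, c_d ∈ O_K` and the polynomial `φ = (c_0 + c_1 x + … + c_d x ^ d) / b`. The vector is not `Exceptional` for
`B` if `φ` has degree `d` and satisfies the dynamical Lehmer inequality `ĥ_φ(x) ≥ B / [L : K]` for all number fields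
`L ⊇ K` of degree not divisible by `d` and all `x ∈ L` (and `ĥ_φ(x) ≥ B` if `L` is Galois over `K`).

Let a sequence (`j = 0, 1, 2, …`) of families of vectors in `ℤ ^ r` be given. The vectors of the `j`-th family are
`c₀ + y`, `c₀` an arbitrary integral vector (depending on `j`, of any size) and `y` one of the following vectors
(represented by `0, …, q - 1`):

* `y` in any family of vectors modulo some `q` (depending on `j`), whose nontrivial Fourier coefficients are at most
  `1 / (Z (42 + 3 log q) ^ r)`, where `Z → ∞`, `Z ≤ q`;
* `β(x, z) + u(x) + w(z)` modulo a prime `P → ∞`, where `β : k ^ a × k ^ b → k ^ r` is bilinear, the nontrivial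
  combinations of its coordinates have rank at least `ρ`, `x` and `z` are in ARBITRARY sets `E` and `F` with
  `|E| |F| ≥ P ^ (a + b - ρ + δ)`, `u` and `w` are arbitrary functions (for `δ > 0` fixed);
* the same for `β(x, z) = x z`, `x` and `z` in ARBITRARY subsets of the field of `P ^ r` elements,
  `|E| |F| ≥ P ^ (r + δ)`;
* polynomials in `k` variables of degree at most `P ^ (δ / 4)`, all nontrivial combinations of which have a monomial with
  at least two variables, plus arbitrary functions of the single variables, on products of `k` ARBITRARY sets of at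
  least `P ^ (1 / 2 + δ)` residues;
* polynomials in one variable of degree at most `P ^ (δ / 4)`, no nontrivial combination of which is constant, on any
  subgroup of the multiplicative group modulo `P` with at least `P ^ (1 / 2 + δ)` elements.

**Theorem.** There is a set `E j` of exceptions in the `j`-th family, `|E j| = o(size)`, such that for ALL number fields
`K` of degree `m`, ALL integral bases of `K` and ALL constants `B > 0`, for large `j` no vector of the `j`-th family
outside of `E j` is exceptional for `B`.

New: the families, and that one small set of exceptions serves for all fields, bases and constants. The exceptional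
sets for given structure constants and a given constant are pronull (starting library `N954.RO`); such sets contain few
members of the families by the theorem of the starting library `N384.VF` on vectors of residues; the estimates of the
Fourier coefficients on arbitrary sets are in `U569/APL`.
-/

namespace Pool.Agent.Results.MP_2194ec_nt.ArbitrarySets

open NumberField Filter
open Pool.Agent.Results.MP_2194ec_nt.PolynomialLehmer (Exceptional)
open Pool.Agent.Results.MP_2194ec_nt.RandomOrbits (vector)
open Pool.Agent.N24.RW (ProNull crit clo)
open Pool.Agent.U569.APL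

/-- **The dynamical Lehmer inequality for polynomials with coefficients formed from arbitrary sets.** -/
theorem result (m d : ℕ) (hd : 2 ≤ d) :
    (∀ (τ : ℕ → Type) (s : ∀ j, Finset (τ j)) (v : ∀ j, τ j → Fin (d + 2) × Fin m → ℤ), FlatFamilies s v →
      ∃ E : ∀ j, Finset (τ j), Small s E ∧
        ∀ (K : Type) [Field K] [NumberField K] (ω : Module.Basis (Fin m) ℤ (𝓞 K)) (B : ℝ), 0 < B →
          Outside s E v fun c => vector ω c ∉ Exceptional K d B) ∧
    Examples (Fin (d + 2) × Fin m) := by
  classical
  refine ⟨fun τ s v hs => ?_, examples _⟩
  have hnull : ∀ x : (Fin m × Fin m × Fin m → ℤ) × ℕ,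
      ProNull (Pool.Agent.N954.RO.ExcC x.1 d x.2) := by
    rintro ⟨κ, M⟩
    by_cases hex : ∃ (K : Type) (_ : Field K) (_ : NumberField K)
        (ω : Module.Basis (Fin m) ℤ (𝓞 K)), Pool.Agent.N692.TS.code ω = κ
    · obtain ⟨K₀, _, _, ω₀, hω₀⟩ := hex
      exact Pool.Agent.N954.RO.excC_null crit clo κ d hd M K₀ ω₀ hω₀
    · have he : Pool.Agent.N954.RO.ExcC κ d M = ∅ := by
        rw [Set.eq_empty_iff_forall_notMem]
        rintro c ⟨K, i1, i2, ω, hω, -⟩
        exact hex ⟨K, i1, i2, ω, hω⟩
      show ProNull (Pool.Agent.N954.RO.ExcC κ d M)
      rw [he]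
      intro M' hM' ε hε
      exact ⟨1, one_pos, Nat.coprime_one_left _, by simpa using hε.le⟩
  obtain ⟨E, hE, h2⟩ := flat_diag hs _ hnull
  refine ⟨E, hE, fun K _ _ ω B hB => ?_⟩
  have h1 := h2 (Pool.Agent.N692.TS.code ω, ⌈Real.exp (B * d * Module.finrank ℚ K)⌉₊)
  filter_upwards [h1] with j hj i hi hi2 hc
  exact hj i hi hi2 ⟨K, inferInstance, inferInstance, ω, rfl, fun hg =>
    Pool.Agent.N954.RO.not_exceptional hd hB _ hg hc⟩

end Pool.Agent.Results.MP_2194ec_nt.ArbitrarySets
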