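import Pool.Agent.Results.MP_2194ec_nt.RandomOrbits
import Pool.Agent.U125.NO.Seq

/-!
# MP_2194ec_nt: the dynamical Lehmer inequality along every normal orbit of coefficients

`Exceptional K d B` is the set of the starting result `PolynomialLehmer`: it consists of the vectors
`(b, c₀, …, c_d)` of integers of the number field `K` for which the polynomial

  `φ = (c₀ + c₁ x + … + c_d x^d) / b`

of degree `d ≥ 2` does not satisfy the dynamical Lehmer inequality `ĥ_φ(x) ≥ B / [L : K]` for all number
fields `L ⊇ K` of degree not divisible by `d` and all `x ∈ L` (and `ĥ_φ(x) ≥ B` if `L` is Galois over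
`K`). `vector ω c` (starting result `RandomOrbits`) is the vector of the `∑_j c (i, j) ω_j` for an integral
basis `ω` of `K`.

**Theorem.** Let `x_0, x_1, …` be a normal orbit in `ℤ^κ` (`NormalOrbit`): the orbit of an integral vector
under a finite family of integral affine maps along ANY normal sequence of indices, the family being wide
(for all `q` prime to some `q₀` the maps are bijective modulo `q`, and the vector can be moved to at least the
proportion `ε > 0`, not depending on `q`, of all vectors modulo `q`). There is ONE set `E` of times of density
zero such that for ALL `d ≥ 2`, all number fields `K` of any degree, all integral bases, all injective choices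
of coordinates of the orbit as the integral coordinates of the coefficients, and all constants `B > 0` the
polynomial `φ` at the time `n` satisfies the inequality with the constant `B` for all but finitely many
`n ∉ E`. In other words, the best constant tends to infinity outside of `E`, for all these fields.

Examples (second part): (1) `x_n = (⌊b ^ n ξ_l⌋)_l` for ANY vector `ξ` of real numbers which is normal to the
base `b ≥ 2`; (2) the orbit of any vector `v ≠ 0` along ANY normal word in matrices which generate the special
linear group modulo all `q` prime to some `q₀` (generators of a thin group); (3) vectors of integers whose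
digits are chosen from a restricted set of vectors.

The starting result `RandomOrbits` has the orbits of thin groups in `ℤ^(m (d + 2))` for ALMOST ALL words, with
density zero for each `m`, `d`.

Proof. The local criterion of the starting library (`N954.RO`: a prime `v` of `K` of large norm divides `b`
exactly and the numerator is irreducible of degree `d` modulo `v`) and its pronull theorem; normal orbits visit
a pronull set only at times of density zero (engine `Pool.Agent.U125.NO` of helper125); the criterion depends
only on the structure constants of the integral basis, so that there are countably many conditions.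
-/

set_option autoImplicit false

namespace Pool.Agent.Results.MP_2194ec_nt.NormalSequences

open NumberField Filter Topology Module
open Pool.Agent.U125.NO (NormalOrbit Examples examples)
open Pool.Agent.Results.MP_2194ec_nt.PolynomialLehmer (Exceptional)
open Pool.Agent.Results.MP_2194ec_nt.RandomOrbits (vector)
open Pool.Agent.N692.TS (code)
open Pool.Agent.N954.RO (ExcC excC_null not_exceptional)

/-- The set `E` of natural numbers has density zero. -/
def Null (E : Set ℕ) : Prop :=
  Tendsto (fun N : ℕ => (({m : ℕ | m < N ∧ m ∈ E}.ncard : ℕ) : ℝ) / (N : ℝ)) atTop (𝓝 0)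

/-- Degrees, structure constants, a bound and a choice of coordinates. -/
def Idx (κ : Type) : Type :=
  Σ cd : (Σ m : ℕ, (Fin m × Fin m × Fin m → ℤ)), Σ dM : ℕ × ℕ,
    {f : Fin (dM.1 + 2) × Fin cd.1 → κ // 2 ≤ dM.1 ∧ Function.Injective f ∧
      ∃ (K : Type) (_ : Field K) (_ : NumberField K) (ω : Module.Basis (Fin cd.1) ℤ (𝓞 K)), code ω = cd.2}

instance (κ : Type) [Finite κ] : Countable (Idx κ) := by
  unfold Idx
  infer_instance

theorem result :
    (∀ (κ : Type) [Fintype κ] [DecidableEq κ] (x : ℕ → κ → ℤ), NormalOrbit x →
      ∃ E : Set ℕ, Null E ∧ ∀ (m d : ℕ), 2 ≤ d →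
        ∀ f : Fin (d + 2) × Fin m → κ, Function.Injective f →
          ∀ (K : Type) [Field K] [NumberField K] (ω : Module.Basis (Fin m) ℤ (𝓞 K)) (B : ℝ), 0 < B →
            {n : ℕ | n ∉ E ∧ vector ω (fun q => x n (f q)) ∈ Exceptional K d B}.Finite) ∧
    ∀ (κ : Type) [Fintype κ] [DecidableEq κ], Examples κ := by
  refine ⟨?_, fun κ _ _ => examples κ⟩
  intro κ _ _ x hx
  obtain ⟨E, hE1, hE2⟩ := hx.avoids.diag (K := Idx κ)
    (fun a y => (fun q => y (a.2.2.1 q)) ∈ ExcC a.1.2 a.2.1.1 a.2.1.2)
    (fun a => by
      obtain ⟨⟨m, cd⟩, ⟨d, M⟩, f, hd, hf, K₀, i1, i2, ω₀, hω₀⟩ := a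
      exact (Pool.Agent.N24.RW.clo (Fin (d + 2) × Fin m)).2.2.2.2 κ f hf _
        (excC_null Pool.Agent.N24.RW.crit Pool.Agent.N24.RW.clo cd d hd M K₀ ω₀ hω₀))
  refine ⟨E, hE1, fun m d hd f hf K _ _ ω B hB => ?_⟩
  refine (hE2 ⟨⟨m, code ω⟩, (d, ⌈Real.exp (B * d * finrank ℚ K)⌉₊), f, hd, hf, K, inferInstance,
    inferInstance, ω, rfl⟩).subset ?_
  rintro n ⟨hn, hc⟩
  exact ⟨hn, K, inferInstance, inferInstance, ω, rfl, fun hg => not_exceptional hd hB _ hg hc⟩

end Pool.Agent.Results.MP_2194ec_nt.NormalSequences
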