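import Mathlib
import Pool.Agent.U218.PG.Fin4

/-!
# A gap for the canonical heights over extensions whose `m`-th powers are central

Let `f` be a rational map of the projective line, of degree `d ≥ 2`, over a number field `K`. The
orbifold of `f` attaches to a point `y` the least common multiple `ν(y)` of the local degrees at
`c` of the iterates `f^n`, for all `n` and all points `c` with `f^n(c) = y` (and `∞` if there is no
common multiple). Suppose that its Euler characteristic `2 - ∑ (1 - 1 / ν(y))` is negative. By
well-known results of Thurston, this holds for all rational maps except those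
conjugate to power maps, Chebyshev polynomials (up to sign) and Lattès maps.

Theorem: for all `r` and `m ≥ 1` there is a constant `c > 0` with the following property. Let `E` be
a finite Galois extension of `K` such that the `m`-th powers of the elements of `Gal(E/K)` are central
(the group modulo its centre has exponent dividing `m`), and let `L` be an extension of `E` of degree
at most `r`. All wandering points `P` of `P^1(L)` satisfy `ĥ_f(P) ≥ c`.

There is no condition on the degree and the ramification of `E` and on the reduction of `f`.
The condition on the Galois group holds if `E` is generated by an abelian extension of `K` and a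
Galois extension of `K` with a group of exponent dividing `m` (second part of the theorem). So the
theorem holds for the points of degree at most `r` over the compositum of the maximal abelian
extension of `K` and of any infinite Galois extension of `K` of exponent `m`, for instance the
compositum of all extensions of `K` of degree at most `n` (`m = n!`). For the multiplicative group,
that is for the power maps, the corresponding result is a theorem of Amoroso, David and
Zannier. The case `m = 1` is the starting result `AbelianGap`.

Method. Let `P = (x : 1)` and let `E''` be the Galois closure of `E ∩ K(x)`. For a prime number `p`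
which does not divide `m`, the elements of `p`-power order of `G = Gal(E''/K)` are central; they form
the Sylow subgroup, which has a normal complement, with commutative quotient (transfer). So there is
an abelian extension `A ⊆ E''` of `K` such that the degree `[E'' : A]` is prime to `p`, and if `E''` is
wildly ramified above `p` then so is `A`. In this case an element of `Gal(A/K)` which moves all elements
very little at all places above a prime ideal of norm `p` (from the library of `AbelianGap`) is lifted,
at each place, to elements of `p`-power order which move the elements of the field generated by the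
conjugates of `x` equally little; they have the same restriction to `E''`, which is central and nontrivial,
and so nontrivial on `E ∩ K(x)`. This gives the pairs of conjugates of `x` for which the interpolation
argument of `AbelianGap` works. In the tame case the lower bound is `PowerCentralLehmer`.
-/

set_option autoImplicit false

namespace Pool.Agent.Results.MP_2194ec_nt.PowerCentralGap

open MvPolynomial NumberField Module Filter Topology

/-- the map defined by a pair of forms over `K`, on coordinate vectors over an extension -/
noncomputable def evalMap {K L : Type} [Field K] [Field L] [Algebra K L]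
    (F : Fin 2 → MvPolynomial (Fin 2) K) (y : Fin 2 → L) : Fin 2 → L :=
  fun i => aeval y (F i)

/-- the point with coordinate vector `x` is wandering: its iterates are pairwise distinct points
of the projective line -/
def Wandering {K L : Type} [Field K] [Field L] [Algebra K L]
    (F : Fin 2 → MvPolynomial (Fin 2) K) (x : Fin 2 → L) : Prop :=
  ¬ ∃ m n : ℕ, m ≠ n ∧ ∃ c : L, c ≠ 0 ∧ (evalMap F)^[n] x = c • (evalMap F)^[m] x

/-- `h` is the canonical height of the point with coordinate vector `x` over the number field `L`:
the limit of `h(F^n(x)) / d ^ n`, where `h` is the absolute logarithmic Weil height, that is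
Mathlib's (relative) `Height.logHeight` divided by `[L : ℚ]` -/
def IsCanonicalHeight {K L : Type} [Field K] [Field L] [NumberField L] [Algebra K L]
    (F : Fin 2 → MvPolynomial (Fin 2) K) (d : ℕ) (x : Fin 2 → L) (h : ℝ) : Prop :=
  Tendsto (fun n : ℕ => Height.logHeight ((evalMap F)^[n] x) /
    ((finrank ℚ L : ℝ) * (d : ℝ) ^ n)) atTop (𝓝 h)

section orbifold

variable {k : Type} [Field k]

/-- the pair of forms which defines the `n`-th iterate of the map defined by the pair `G` -/
noncomputable def iterate (G : Fin 2 → MvPolynomial (Fin 2) k) :
    ℕ → Fin 2 → MvPolynomial (Fin 2) k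
  | 0 => X
  | n + 1 => fun i => bind₁ (iterate G n) (G i)

/-- the value at the vector `z` of the pair of forms `G` -/
noncomputable def value (G : Fin 2 → MvPolynomial (Fin 2) k) (z : Fin 2 → k) : Fin 2 → k :=
  fun i => eval z (G i)

/-- the nonzero vectors `y` and `z` define the same point of the projective line -/
def SamePoint (y z : Fin 2 → k) : Prop := y 0 * z 1 - y 1 * z 0 = 0

/-- the linear form which vanishes at the point with coordinate vector `y` -/
noncomputable def linearForm (y : Fin 2 → k) : MvPolynomial (Fin 2) k :=
  C (y 1) * X 0 - C (y 0) * X 1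

/-- the local degree, at the point with coordinate vector `z`, of the map defined by the pair `G`
is `e`: the pull-back by this map of the linear form which vanishes at the image of `z` has a zero
of order exactly `e` at `z` -/
def IsLocalDegree (G : Fin 2 → MvPolynomial (Fin 2) k) (z : Fin 2 → k) (e : ℕ) : Prop :=
  linearForm z ^ e ∣ bind₁ G (linearForm (value G z)) ∧
    ¬ linearForm z ^ (e + 1) ∣ bind₁ G (linearForm (value G z))

/-- the weight, at the point with coordinate vector `y`, of the orbifold of the map `f` defined by
the pair `G`, is at least `m`: all positive common multiples of the local degrees of the iterates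
`f^n` at the points `z` with `f^n(z) = y` are at least `m` -/
def WeightAtLeast (G : Fin 2 → MvPolynomial (Fin 2) k) (y : Fin 2 → k) (m : ℕ) : Prop :=
  ∀ M : ℕ, 0 < M →
    (∀ (n : ℕ) (z : Fin 2 → k) (e : ℕ), z ≠ 0 → SamePoint (value (iterate G n) z) y →
      IsLocalDegree (iterate G n) z e → e ∣ M) → m ≤ M

/-- the Euler characteristic `2 - ∑ (1 - 1 / ν(y))` of the orbifold of the map defined by the pair
`G` is negative -/
def HyperbolicOrbifold (G : Fin 2 → MvPolynomial (Fin 2) k) : Prop :=
  ∃ (s : ℕ) (y : Fin s → Fin 2 → k) (m : Fin s → ℕ), (∀ i, y i ≠ 0) ∧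
    (∀ i j, i ≠ j → ¬ SamePoint (y i) (y j)) ∧ (∀ i, 0 < m i ∧ WeightAtLeast G (y i) (m i)) ∧
    2 < ∑ i, (1 - 1 / (m i : ℝ))

lemma iterate_eq (G : Fin 2 → MvPolynomial (Fin 2) k) (n : ℕ) :
    iterate G n = N715.AD.itF G n := by
  induction n with
  | zero => rfl
  | succ n ih =>
    funext i
    change bind₁ (iterate G n) (G i) = bind₁ (N715.AD.itF G n) (G i)
    rw [ih]

end orbifold

/-- the `m`-th powers of the elements of the group `G` are in the centre: the exponent of the
quotient by the centre divides `m` -/
def PowersCentral (G : Type) [Group G] (m : ℕ) : Prop :=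
  ∀ σ g : G, g * σ ^ m = σ ^ m * g

/-- the exponent of the Galois group of `E` over `k` divides `m` -/
def ExponentDivides (k E : Type) [Field k] [Field E] [Algebra k E] (m : ℕ) : Prop :=
  ∀ σ : Gal(E/k), σ ^ m = 1

/-- `E` is generated by an abelian extension and by a Galois extension of `k` with a group of exponent
dividing `m` -/
def AbelianTimesExponent (k E : Type) [Field k] [Field E] [Algebra k E] (m : ℕ) : Prop :=
  ∃ E₁ E₂ : IntermediateField k E, IsAbelianGalois k E₁ ∧ IsGalois k E₂ ∧
    ExponentDivides k E₂ m ∧ E₁ ⊔ E₂ = ⊤

lemma example_compositum (k E : Type) [Field k] [Field E] [Algebra k E] [IsGalois k E] (m : ℕ)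
    (E₁ E₂ : IntermediateField k E) [IsAbelianGalois k E₁] [IsGalois k E₂]
    (h₂ : ∀ σ : Gal(E₂/k), σ ^ m = 1) (hsup : E₁ ⊔ E₂ = ⊤) :
    PowersCentral Gal(E/k) m := by
  intro σ g
  obtain ⟨c, hc⟩ : ∃ c, c = g * σ ^ m * g⁻¹ * (σ ^ m)⁻¹ := ⟨_, rfl⟩
  have h1 : c ∈ E₁.fixingSubgroup := by
    rw [← IntermediateField.restrictNormalHom_ker E₁, MonoidHom.mem_ker, hc]
    simp only [map_mul, map_inv, map_pow]
    have h3 : ∀ a b : Gal(E₁/k), a * b = b * a := fun a b =>
      IsMulCommutative.is_comm.comm a b
    rw [h3 (AlgEquiv.restrictNormalHom E₁ g) _, mul_inv_cancel_right, mul_inv_cancel]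
  have h2 : c ∈ E₂.fixingSubgroup := by
    rw [← IntermediateField.restrictNormalHom_ker E₂, MonoidHom.mem_ker, hc]
    simp only [map_mul, map_inv, map_pow, h₂, mul_one, mul_inv_cancel, inv_one]
  have h3 : c ∈ (E₁ ⊔ E₂).fixingSubgroup := by
    rw [IntermediateField.fixingSubgroup_sup]
    exact ⟨h1, h2⟩
  rw [hsup, IntermediateField.fixingSubgroup_top, Subgroup.mem_bot, hc] at h3
  exact mul_inv_eq_iff_eq_mul.mp (mul_inv_eq_one.mp h3)

/-- the gap `1 / C` for the rational map given by the forms `F` over `K`: for all finite Galois
extensions `E` of `K` such that the `m`-th powers in `Gal(E/K)` are central, all extensions `L` of `E` of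
degree at most `r` and all wandering points over `L`, the canonical height is at least `1 / C` -/
def Gap {K : Type} [Field K] (F : Fin 2 → MvPolynomial (Fin 2) K) (d r m C : ℕ) : Prop :=
  ∀ (E L : Type) [Field E] [NumberField E] [Field L] [NumberField L]
    [Algebra K E] [Algebra E L] [Algebra K L] [IsScalarTower K E L] [IsGalois K E],
    PowersCentral Gal(E/K) m → finrank E L ≤ r →
    ∀ x : Fin 2 → L, x ≠ 0 → Wandering F x →
      ∃ h : ℝ, IsCanonicalHeight F d x h ∧ 1 / (C : ℝ) ≤ h

/-- the forms in `F` have no common zero except zero -/
def NoCommonZero {K : Type} [Field K] (F : Fin 2 → MvPolynomial (Fin 2) K) : Prop :=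
  ∀ z : Fin 2 → AlgebraicClosure K, (∀ i, aeval z (F i) = 0) → z = 0

/-- **Main result.** -/
theorem result :
    (∀ (K : Type) [Field K] [NumberField K] (d : ℕ), 2 ≤ d →
      -- the rational map: two binary forms of degree `d` without common zero
      ∀ F : Fin 2 → MvPolynomial (Fin 2) K, (∀ i, (F i).IsHomogeneous d) → NoCommonZero F →
      -- its orbifold has negative Euler characteristic
      HyperbolicOrbifold (fun i => map (algebraMap K (AlgebraicClosure K)) (F i)) →
      ∀ r m : ℕ, 1 ≤ m → ∃ C : ℕ, 0 < C ∧ Gap F d r m C) ∧
    -- composita of abelian extensions and of extensions of exponent dividing `m`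
    (∀ (k E : Type) [Field k] [Field E] [Algebra k E] [IsGalois k E] (m : ℕ),
      AbelianTimesExponent k E m → PowersCentral Gal(E/k) m) := by
  refine ⟨fun K _ _ d hd F hF hmor horb r m hm => ?_, ?_⟩
  · obtain ⟨s, y, ν, hy, hdist, hν, hsum⟩ := horb
    obtain ⟨C, hC, h⟩ := U218.PG.fin4 m hm K d hd F hF hmor y ν (fun i => (hν i).1) hy
      (fun i j hij => hdist i j hij)
      (fun i M hM hM' => (hν i).2 M hM fun n z e hz h1 h2 => hM' n z e hz
        (by rw [iterate_eq] at h1; exact h1) (by rw [iterate_eq] at h2; exact h2)) hsum r
    refine ⟨C, hC, ?_⟩
    intro E L _ _ _ _ _ _ _ _ hgal hcen hr x hx hw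
    refine h E L ⟨hgal, fun σ => ?_⟩ hr x hx hw
    have h1 : (Set.range fun g : Gal(E/K) => g * σ ^ m * g⁻¹) ⊆ {σ ^ m} := by
      rintro _ ⟨g, rfl⟩
      show g * σ ^ m * g⁻¹ = σ ^ m
      rw [hcen σ g, mul_inv_cancel_right]
    calc _ ≤ ({σ ^ m} : Set Gal(E/K)).ncard := Set.ncard_le_ncard h1 (Set.finite_singleton _)
      _ = 1 := Set.ncard_singleton _
  · rintro k E _ _ _ _ m ⟨E₁, E₂, h1, h2, h₂, hsup⟩
    exact example_compositum k E m E₁ E₂ h₂ hsup

end Pool.Agent.Results.MP_2194ec_nt.PowerCentralGap
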