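import Mathlib
import Pool.Agent.U218.PC.Fin

/-!
# Canonical heights over composita of abelian extensions and of extensions of bounded exponent

Let `f` be any rational map of the projective line, of degree `d ≥ 2`, over a number field `K`, and
let `B`, `r`, `m ≥ 1` and `b` be integers. There is an integer `C > 0` with the following
properties. Let `k` be an extension of `K` of degree at most `B`, let `E` be a finite Galois extension
of `k` such that the `m`-th power of every element of `Gal(E/k)` has at most `b` conjugates, and let
`L` be an extension of `E` of degree at most `r`. All wandering points `P` of `P^1(L)` satisfy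
`ĥ_f(P) ≥ 1 / (C * (1 + log D) ^ C)`, where `D = [k(P) : k]`, and `ĥ_f(P) ≥ 1 / (C * N(𝔭) ^ C)` for
every prime ideal `𝔭` of `k` which is at most tamely ramified in `E` and does not contain `C`.
There is no hypothesis on the reduction of `f` and on the ramification of `E`.

The condition on the Galois group holds with `b = 1` if `E` is generated by an abelian extension `E₁`
of `k` and a Galois extension `E₂` of `k` with a group of exponent dividing `m`, of any degree and not
solvable in general (second part of the theorem). So the inequality holds for the points of degree at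
most `r` over the compositum of the maximal abelian extension of `k` and of any (infinite) Galois
extension of `k` of exponent `m`, for instance the compositum of all extensions of `k` of degree at
most `n` (`m = n!`). The case `m = b = 1` is the starting result `AbelianLehmer`.

Method. The powers `N(𝔭) ^ j`, with `j` a multiple of `m`, of the Frobenius automorphisms above `𝔭`
induce at most `b` elements of `Gal(E/k)`; this is enough for the comparison of the conjugates of `P`
with their Frobenius images. For the ramification: let `k ⊆ E' ⊆ E` and let `E''` be the Galois closure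
of `E'`. If a prime number `p > b` which does not divide `m` divides `[E'' : k]`, then it divides
`[E' : k]`: the conjugates of the `m`-th power of an element of order `p` are in all Sylow
`p`-subgroups. Hence the prime ideals at which `E''` is wildly ramified divide `m`, `b!` or `D`.
-/

set_option autoImplicit false

namespace Pool.Agent.Results.MP_2194ec_nt.PowerCentralLehmer

open MvPolynomial NumberField Module Filter Topology

/-- the map defined by a pair of forms over `K`, on coordinate vectors over an extension -/
noncomputable def evalMap {K L : Type} [Field K] [Field L] [Algebra K L]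
    (F : Fin 2 → MvPolynomial (Fin 2) K) (y : Fin 2 → L) : Fin 2 → L :=
  fun i => aeval y (F i)

/-- the point with coordinate vector `x` is wandering: its iterates are pairwise distinct points
of the projective line -/
def Wandering {K L : Type} [Field K] [Field L] [Algebra K L]
    (F : Fin 2 → MvPolynomial (Fin 2) K) (x : Fin 2 → L) : Prop :=
  ¬ ∃ m n : ℕ, m ≠ n ∧ ∃ c : L, c ≠ 0 ∧ (evalMap F)^[n] x = c • (evalMap F)^[m] x

/-- `h` is the canonical height of the point with coordinate vector `x` over the number field `L`:
the limit of `h(F^n(x)) / d ^ n`, where `h` is the absolute logarithmic Weil height, that is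
Mathlib's (relative) `Height.logHeight` divided by `[L : ℚ]` -/
def IsCanonicalHeight {K L : Type} [Field K] [Field L] [NumberField L] [Algebra K L]
    (F : Fin 2 → MvPolynomial (Fin 2) K) (d : ℕ) (x : Fin 2 → L) (h : ℝ) : Prop :=
  Tendsto (fun n : ℕ => Height.logHeight ((evalMap F)^[n] x) /
    ((finrank ℚ L : ℝ) * (d : ℝ) ^ n)) atTop (𝓝 h)

/-- the field `k(P)` generated over `k` by the ratios `x_i / x_j` of the coordinates of the point
`P` with coordinate vector `x` -/
def fieldOfDefinition (k : Type) {L : Type} [Field k] [Field L] [Algebra k L] (x : Fin 2 → L) :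
    IntermediateField k L :=
  IntermediateField.adjoin k (Set.range fun ij : Fin 2 × Fin 2 => x ij.1 / x ij.2)

/-- the `m`-th power of every element of the group `G` has at most `b` conjugates -/
def PowersHaveFewConjugates (G : Type) [Group G] (m b : ℕ) : Prop :=
  ∀ σ : G, (Set.range fun g : G => g * σ ^ m * g⁻¹).ncard ≤ b

lemma example_compositum (k E : Type) [Field k] [Field E] [Algebra k E] [IsGalois k E] (m : ℕ)
    (E₁ E₂ : IntermediateField k E) [IsAbelianGalois k E₁] [IsGalois k E₂]
    (h₂ : ∀ σ : Gal(E₂/k), σ ^ m = 1) (hsup : E₁ ⊔ E₂ = ⊤) :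
    PowersHaveFewConjugates Gal(E/k) m 1 := by
  intro σ
  have hcomm : ∀ g : Gal(E/k), g * σ ^ m * g⁻¹ = σ ^ m := by
    intro g
    obtain ⟨c, hc⟩ : ∃ c, c = g * σ ^ m * g⁻¹ * (σ ^ m)⁻¹ := ⟨_, rfl⟩
    have h1 : c ∈ E₁.fixingSubgroup := by
      rw [← IntermediateField.restrictNormalHom_ker E₁, MonoidHom.mem_ker, hc]
      simp only [map_mul, map_inv, map_pow]
      have h3 : ∀ a b : Gal(E₁/k), a * b = b * a := fun a b =>
        IsMulCommutative.is_comm.comm a b
      rw [h3 (AlgEquiv.restrictNormalHom E₁ g) _, mul_inv_cancel_right, mul_inv_cancel]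
    have h2 : c ∈ E₂.fixingSubgroup := by
      rw [← IntermediateField.restrictNormalHom_ker E₂, MonoidHom.mem_ker, hc]
      simp only [map_mul, map_inv, map_pow, h₂, mul_one, mul_inv_cancel, inv_one]
    have h3 : c ∈ (E₁ ⊔ E₂).fixingSubgroup := by
      rw [IntermediateField.fixingSubgroup_sup]
      exact ⟨h1, h2⟩
    rw [hsup, IntermediateField.fixingSubgroup_top, Subgroup.mem_bot, hc] at h3
    exact mul_inv_eq_one.mp h3
  have h1 : (Set.range fun g : Gal(E/k) => g * σ ^ m * g⁻¹) ⊆ {σ ^ m} := by
    rintro _ ⟨g, rfl⟩
    exact hcomm g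
  calc _ ≤ ({σ ^ m} : Set Gal(E/k)).ncard := Set.ncard_le_ncard h1 (Set.finite_singleton _)
    _ = 1 := Set.ncard_singleton _

/-- the prime ideal `𝔭` of `k` is at most tamely ramified in `E` -/
def Tame {k : Type} [Field k] [NumberField k] (E : Type) [Field E] [NumberField E] [Algebra k E]
    (𝔭 : Ideal (𝓞 k)) : Prop :=
  ∀ 𝔓 : Ideal (𝓞 E), 𝔓.IsPrime → 𝔓.under (𝓞 k) = 𝔭 →
    Nat.Coprime (𝔓.ramificationIdx (𝓞 k)) 𝔭.absNorm

/-- the canonical height `h` satisfies `h ≥ 1 / (C * (1 + log D) ^ C)`, and `h ≥ 1 / (C * N(𝔭) ^ C)` for
the maximal ideals `𝔭` of `k` which are at most tamely ramified in `E` and do not contain `C` -/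
def LowerBounds (k E : Type) [Field k] [NumberField k] [Field E] [NumberField E] [Algebra k E]
    (C D : ℕ) (h : ℝ) : Prop :=
  1 / (C * (1 + Real.log D) ^ C) ≤ h ∧
    ∀ 𝔭 : Ideal (𝓞 k), 𝔭.IsMaximal → 𝔭 ≠ ⊥ → (C : 𝓞 k) ∉ 𝔭 → Tame E 𝔭 →
      1 / (C * (𝔭.absNorm : ℝ) ^ C) ≤ h

/-- the rational map given by the forms `F` over `K` satisfies the inequalities with the
constant `C`: for all extensions `k` of `K` of degree at most `B`, all finite Galois extensions `E` of
`k` such that the `m`-th powers in `Gal(E/k)` have at most `b` conjugates, all extensions `L` of `E` of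
degree at most `r` and all wandering points over `L` -/
def Bound {K : Type} [Field K] (F : Fin 2 → MvPolynomial (Fin 2) K) (d B r m b C : ℕ) : Prop :=
  ∀ (k E L : Type) [Field k] [NumberField k] [Field E] [NumberField E]
    [Field L] [NumberField L] [Algebra K k] [Algebra k E] [Algebra E L] [Algebra K L]
    [Algebra k L] [IsScalarTower K k L] [IsScalarTower k E L] [IsGalois k E],
    PowersHaveFewConjugates Gal(E/k) m b → finrank K k ≤ B → finrank E L ≤ r →
    ∀ x : Fin 2 → L, x ≠ 0 → Wandering F x →
      ∃ h : ℝ, IsCanonicalHeight F d x h ∧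
        LowerBounds k E C (finrank k (fieldOfDefinition k x)) h

/-- the exponent of the Galois group of `E` over `k` divides `m` -/
def ExponentDivides (k E : Type) [Field k] [Field E] [Algebra k E] (m : ℕ) : Prop :=
  ∀ σ : Gal(E/k), σ ^ m = 1

/-- `E` is generated by an abelian extension and by a Galois extension of `k` with a group of exponent
dividing `m` -/
def AbelianTimesExponent (k E : Type) [Field k] [Field E] [Algebra k E] (m : ℕ) : Prop :=
  ∃ E₁ E₂ : IntermediateField k E, IsAbelianGalois k E₁ ∧ IsGalois k E₂ ∧
    ExponentDivides k E₂ m ∧ E₁ ⊔ E₂ = ⊤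

/-- the forms in `F` have no common zero except zero -/
def NoCommonZero {K : Type} [Field K] (F : Fin 2 → MvPolynomial (Fin 2) K) : Prop :=
  ∀ z : Fin 2 → AlgebraicClosure K, (∀ i, aeval z (F i) = 0) → z = 0

/-- **Main result.** -/
theorem result :
    (∀ (K : Type) [Field K] [NumberField K] (d : ℕ), 2 ≤ d →
      -- the rational map: two binary forms of degree `d` without common zero
      ∀ F : Fin 2 → MvPolynomial (Fin 2) K, (∀ i, (F i).IsHomogeneous d) → NoCommonZero F →
      ∀ B r m b : ℕ, 1 ≤ m → ∃ C : ℕ, 0 < C ∧ Bound F d B r m b C) ∧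
    -- composita of abelian extensions and of extensions of exponent dividing `m`
    (∀ (k E : Type) [Field k] [Field E] [Algebra k E] [IsGalois k E] (m : ℕ),
      AbelianTimesExponent k E m → PowersHaveFewConjugates Gal(E/k) m 1) := by
  refine ⟨fun K _ _ d hd F hF hmor B r m b hm => ?_, ?_⟩
  · obtain ⟨C, hC, h⟩ := U218.PC.main N715.AC.numIndC N715.AC.primeSelC m b hm K d hd F hF hmor B r
    refine ⟨C, hC, ?_⟩
    intro k E L _ _ _ _ _ _ _ _ _ _ _ _ _ hgal hconj hk hr x hx hw
    exact h k E L ⟨hgal, hconj⟩ hk hr x hx hw
  · rintro k E _ _ _ _ m ⟨E₁, E₂, h1, h2, h₂, hsup⟩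
    exact example_compositum k E m E₁ E₂ h₂ hsup

end Pool.Agent.Results.MP_2194ec_nt.PowerCentralLehmer
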